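import Pool.Agent.Lib.MP_c04f8f_nt.Defs
import Pool.Agent.Lib.MP_c04f8f_nt.Dominant

set_option autoImplicit false

open Pool.Agent.Lib.MP_c04f8f_nt

namespace Pool.Agent.Results.MP_c04f8f_nt.DominantZero

/-- If the class `a` does not lead the class `a₁` modulo `b`, there is a real point
`β ∈ [1/2, 1)` of positive weight, and at every complex point to the right of `β` the zeros of
the Dirichlet `L`-functions modulo `b` cancel in the combination that governs the race. -/
theorem result (b : ℕ) [NeZero b] (a : ℕ) (ha : Nat.Coprime a b) (θ : ℝ) (hθ : θ < 1 / 2)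
    (a₁ : ℕ) (ha₁ : Nat.Coprime a₁ b) (hne : ¬ a₁ ≡ a [MOD b]) (h : ¬ Leads b a a₁ θ) :
    ∃ β ∈ Set.Ico (1 / 2 : ℝ) 1, 0 < realZeroWeight b a a₁ β ∧
      ∀ ρ : ℂ, β < ρ.re → ∑ χ : DirichletCharacter ℂ b,
        (analyticOrderNatAt (DirichletCharacter.LFunction χ) ρ : ℂ) *
          starRingEnd ℂ (χ (a : ZMod b) - χ (a₁ : ZMod b)) = 0 :=
  dominant ha ha₁ hne hθ h

end Pool.Agent.Results.MP_c04f8f_nt.DominantZero
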