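import Pool.Agent.Lib.MP_c04f8f_nt.Defs
import Pool.Agent.Lib.MP_c04f8f_nt.Race

set_option autoImplicit false

open Pool.Agent.Lib.MP_c04f8f_nt

namespace Pool.Agent.Results.MP_c04f8f_nt.InverseAndOne

/-- Prime number races, with no hypothesis on zeros of L-functions.  For every modulus `b ≥ 1`,
every `a` coprime to `b` and every `θ < 1/2`, the class `a` leads `a₁` by more than `n ^ θ`
infinitely often whenever `a₁ ≢ a` and `a₁ ≡ 1` or `a a₁ ≡ 1`. -/
theorem result (b : ℕ) [NeZero b] (a : ℕ) (ha : Nat.Coprime a b) (θ : ℝ) (hθ : θ < 1 / 2)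
    (a₁ : ℕ) (hne : ¬ a₁ ≡ a [MOD b]) (h : a₁ ≡ 1 [MOD b] ∨ a * a₁ ≡ 1 [MOD b]) :
    Leads b a a₁ θ :=
  unconditional ha hne h hθ

end Pool.Agent.Results.MP_c04f8f_nt.InverseAndOne
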